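import Pool.Agent.HUK.Stmts

/-! HUK, row SPM (helper62): one hundred percent of all the algebraic integers of degree at most
`m`, with power saving. -/

set_option autoImplicit false

namespace Pool.Agent.HUK.H62

open Polynomial NumberField

theorem hb_sub {E : Type} [Field E] [CharZero E] {m X κ : ℕ} (hκ : κ ≤ X) {x : E}
    (hx : x ∈ Hb E m X) : x - κ ∈ Hb E m (2 * X) := by
  obtain ⟨p, hp, hd, hr, hz⟩ := hx
  refine ⟨p.comp (Polynomial.X + C (κ : ℤ)), hp.comp_X_add_C _, ?_, ?_, ?_⟩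
  · rw [natDegree_comp, natDegree_X_add_C, mul_one]
    exact hd
  · intro z hz'
    rw [aeval_comp] at hz'
    have h1 : aeval z (Polynomial.X + C (κ : ℤ)) = z + κ := by simp
    rw [h1] at hz'
    have h2 := hr _ hz'
    calc ‖z‖ = ‖(z + κ) - κ‖ := by rw [add_sub_cancel_right]
      _ ≤ ‖z + κ‖ + ‖(κ : ℂ)‖ := norm_sub_le _ _
      _ ≤ X + X := by
          refine add_le_add h2 ?_
          rw [Complex.norm_natCast]
          exact_mod_cast hκ
      _ = ((2 * X : ℕ) : ℝ) := by push_cast; ring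
  · rw [aeval_comp]
    have h1 : aeval (x - κ) (Polynomial.X + C (κ : ℤ)) = x := by simp
    rw [h1]
    exact hz

theorem hb_ip {E : Type} [Field E] [CharZero E] {m X : ℕ} (hX : 2 ≤ X) {x : E}
    (hx : x ∈ Hb E m (2 * X)) : x ∈ Ip E m (X ^ (3 * m)) := by
  obtain ⟨p, hp, hd, hr, hz⟩ := hx
  refine ⟨p, hp, hd, ?_, hz⟩
  intro i
  have hX' : (2 : ℝ) ≤ X := by exact_mod_cast hX
  have h1 := coeff_bdd_of_roots_le (B := ((2 * X : ℕ) : ℝ)) (Int.castRingHom ℂ) hp
    (IsAlgClosed.splits _) hd (by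
      intro z hz
      apply hr
      have := (mem_roots'.1 hz).2
      rw [IsRoot.def, eval_map] at this
      rw [aeval_def]
      exact this) i
  rw [coeff_map] at h1
  have h2 : ‖(Int.castRingHom ℂ) (p.coeff i)‖ = |((p.coeff i : ℤ) : ℝ)| := by
    rw [eq_intCast, Complex.norm_intCast]
  rw [h2] at h1
  have h3 : max (((2 * X : ℕ) : ℝ)) 1 = 2 * X := by
    rw [max_eq_left]
    · push_cast; ring
    · push_cast
      linarith
  rw [h3] at h1
  have h4 : ((m.choose (m / 2) : ℕ) : ℝ) ≤ 2 ^ m := by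
    exact_mod_cast Nat.choose_le_two_pow m (m / 2)
  have h5 : (2 * (X : ℝ)) ^ m * (m.choose (m / 2) : ℕ) ≤ (X : ℝ) ^ (3 * m) := by
    calc (2 * (X : ℝ)) ^ m * (m.choose (m / 2) : ℕ) ≤ (2 * (X : ℝ)) ^ m * 2 ^ m := by
          gcongr
      _ = (4 * X : ℝ) ^ m := by
          rw [← mul_pow]
          congr 1
          ring
      _ ≤ ((X : ℝ) ^ 3) ^ m := by
          gcongr
          nlinarith [mul_le_mul hX' hX' (by norm_num) (by linarith : (0 : ℝ) ≤ X)]
      _ = (X : ℝ) ^ (3 * m) := by rw [← pow_mul]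
  have h6 := h1.trans h5
  have h7 : ((|p.coeff i| : ℤ) : ℝ) ≤ ((((X ^ (3 * m) : ℕ) : ℤ)) : ℝ) := by
    push_cast
    exact h6
  exact_mod_cast h7

theorem spm (hHbc : HbcStmt) : SpmStmt := by
  classical
  intro E _ _ S hS m
  obtain ⟨C₁, hC₁⟩ := hHbc E m
  obtain ⟨C₂, δ, hδ, hC₂⟩ := hS m (3 * m)
  set e : ℕ := m * (m + 1) / 2 with he
  refine ⟨C₁ + C₁ * 2 ^ e * C₂, δ, hδ, ?_⟩
  intro X hX
  have hX0 : (0 : ℝ) < X := by exact_mod_cast hX
  have hfin := (hC₁ X hX).1
  have hsub : Nat.card {x : E // x ∈ S ∧ x ∈ Hb E m X} ≤ Nat.card (Hb E m X) := by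
    have : Finite (Hb E m X) := hfin
    exact Nat.card_le_card_of_injective
      (fun x : {x : E // x ∈ S ∧ x ∈ Hb E m X} => (⟨x.1, x.2.2⟩ : Hb E m X))
      (fun a b h => Subtype.ext (congrArg (fun t : Hb E m X => (t : E)) h))
  rcases Nat.lt_or_ge X 2 with h2 | h2
  · have hX1 : X = 1 := by omega
    subst hX1
    have h3 := (hC₁ 1 le_rfl).2
    have h4 : (Nat.card {x : E // x ∈ S ∧ x ∈ Hb E m 1} : ℝ) ≤ Nat.card (Hb E m 1) := by
      exact_mod_cast hsub
    rw [Nat.cast_one, Real.one_rpow, mul_one]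
    rw [Nat.cast_one, one_pow, mul_one] at h3
    have h5 : (0 : ℝ) ≤ ((C₁ * 2 ^ e * C₂ : ℕ) : ℝ) := Nat.cast_nonneg _
    push_cast at h5 ⊢
    linarith
  · have hfin2 := (hC₁ (2 * X) (by omega)).1
    let U : Finset E := hfin2.toFinset
    let T : Finset E := hfin.toFinset.filter (fun x => x ∈ S)
    have hT : Nat.card {x : E // x ∈ S ∧ x ∈ Hb E m X} = T.card := by
      apply Nat.subtype_card
      intro x
      simp only [T, Finset.mem_filter, Set.Finite.mem_toFinset]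
      exact and_comm
    have hU : Nat.card (Hb E m (2 * X)) = U.card := by
      apply Nat.subtype_card
      intro x
      simp only [U, Set.Finite.mem_toFinset]
    let W : E → Finset ℕ := fun w => (Finset.range X).filter (fun κ => w + κ ∈ S)
    have hW : ∀ w ∈ U, ((W w).card : ℝ) ≤ C₂ * (X : ℝ) ^ (1 - δ) := by
      intro w hw
      have hw' : w ∈ Hb E m (2 * X) := by
        simpa only [U, Set.Finite.mem_toFinset] using hw
      have h3 := hC₂ X hX w (hb_ip h2 hw')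
      have h4 : Nat.card {κ : ℕ // κ < X ∧ w + κ ∈ S} = (W w).card := by
        apply Nat.subtype_card
        intro κ
        simp only [W, Finset.mem_filter, Finset.mem_range]
      rw [h4] at h3
      exact h3
    have hcard : (T ×ˢ Finset.range X).card ≤ (U.sigma W).card := by
      apply Finset.card_le_card_of_injOn (fun t : E × ℕ => (⟨t.1 - t.2, t.2⟩ : Σ _ : E, ℕ))
      · rintro ⟨x, κ⟩ hxκ
        have h5 := Finset.mem_product.1 (Finset.mem_coe.1 hxκ)
        have h6 : x ∈ hfin.toFinset ∧ x ∈ S := Finset.mem_filter.1 h5.1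
        have h7 : κ < X := Finset.mem_range.1 h5.2
        have h8 : x ∈ Hb E m X := by simpa only [Set.Finite.mem_toFinset] using h6.1
        apply Finset.mem_coe.2
        rw [Finset.mem_sigma]
        constructor
        · change x - (κ : E) ∈ hfin2.toFinset
          rw [Set.Finite.mem_toFinset]
          exact hb_sub h7.le h8
        · change κ ∈ (Finset.range X).filter (fun j : ℕ => x - (κ : E) + (j : E) ∈ S)
          rw [Finset.mem_filter, sub_add_cancel]
          exact ⟨Finset.mem_range.2 h7, h6.2⟩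
      · rintro ⟨x, κ⟩ _ ⟨y, j⟩ _ h
        have h1 : x - (κ : E) = y - (j : E) := congrArg Sigma.fst h
        have h2 : κ = j := by
          have := (Sigma.mk.inj_iff.1 h).2
          exact eq_of_heq this
        subst h2
        have h3 : x = y := sub_left_injective h1
        rw [h3]
    rw [Finset.card_product, Finset.card_range, Finset.card_sigma] at hcard
    have h9 : (T.card : ℝ) * X ≤ U.card * (C₂ * (X : ℝ) ^ (1 - δ)) := by
      calc (T.card : ℝ) * X = ((T.card * X : ℕ) : ℝ) := by push_cast; ring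
        _ ≤ ((∑ w ∈ U, (W w).card : ℕ) : ℝ) := by exact_mod_cast hcard
        _ = ∑ w ∈ U, ((W w).card : ℝ) := by push_cast; rfl
        _ ≤ ∑ w ∈ U, C₂ * (X : ℝ) ^ (1 - δ) := Finset.sum_le_sum hW
        _ = U.card * (C₂ * (X : ℝ) ^ (1 - δ)) := by rw [Finset.sum_const, nsmul_eq_mul]
    have h10 : (U.card : ℝ) ≤ C₁ * (2 ^ e * (X : ℝ) ^ e) := by
      have := (hC₁ (2 * X) (by omega)).2
      rw [hU] at this
      push_cast at this
      rw [mul_pow] at this
      exact this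
    have h11 : (0 : ℝ) ≤ C₂ * (X : ℝ) ^ (1 - δ) := by positivity
    have h12 : (T.card : ℝ) * X ≤ C₁ * (2 ^ e * (X : ℝ) ^ e) * (C₂ * (X : ℝ) ^ (1 - δ)) :=
      h9.trans (mul_le_mul_of_nonneg_right h10 h11)
    have h13 : (X : ℝ) ^ (1 - δ) = X * (X : ℝ) ^ (-δ) := by
      rw [sub_eq_add_neg, Real.rpow_add hX0, Real.rpow_one]
    have h14 : (X : ℝ) ^ ((e : ℝ) - δ) = (X : ℝ) ^ e * (X : ℝ) ^ (-δ) := by
      rw [sub_eq_add_neg, Real.rpow_add hX0, Real.rpow_natCast]
    rw [hT, h14]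
    have h15 : (T.card : ℝ) ≤ C₁ * 2 ^ e * C₂ * ((X : ℝ) ^ e * (X : ℝ) ^ (-δ)) := by
      rw [h13] at h12
      have : (T.card : ℝ) * X ≤ C₁ * 2 ^ e * C₂ * ((X : ℝ) ^ e * (X : ℝ) ^ (-δ)) * X := by
        calc (T.card : ℝ) * X ≤ _ := h12
          _ = C₁ * 2 ^ e * C₂ * ((X : ℝ) ^ e * (X : ℝ) ^ (-δ)) * X := by ring
      exact le_of_mul_le_mul_right this hX0
    have h16 : (0 : ℝ) ≤ (X : ℝ) ^ e * (X : ℝ) ^ (-δ) := by positivity
    push_cast
    calc (T.card : ℝ) ≤ C₁ * 2 ^ e * C₂ * ((X : ℝ) ^ e * (X : ℝ) ^ (-δ)) := h15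
      _ ≤ (C₁ + C₁ * 2 ^ e * C₂) * ((X : ℝ) ^ e * (X : ℝ) ^ (-δ)) := by
          apply mul_le_mul_of_nonneg_right _ h16
          have : (0 : ℝ) ≤ C₁ := Nat.cast_nonneg _
          linarith

end Pool.Agent.HUK.H62
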